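import Mathlib
import Pool.Agent.H23.Cop.Count

set_option autoImplicit false

namespace Pool.Agent.Results.MP_4fa8e2_co.SqrtBound

set_option linter.unusedSectionVars false
set_option linter.unusedVariables false

open Finset Matrix
open scoped Pointwise

/-- `A` is 5-generic: every affine plane `{x | a ⬝ᵥ x = c}` (`a ≠ 0`) of `ℝ³` contains at most four
points of `A`. -/
def FiveGeneric (A : Finset (Fin 3 → ℝ)) : Prop :=
  ∀ (a : Fin 3 → ℝ) (c : ℝ), a ≠ 0 → {x : Fin 3 → ℝ | x ∈ A ∧ a ⬝ᵥ x = c}.ncard ≤ 4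

/-- the set of the values `|A + A| / |A|` over all 5-generic `A ⊂ ℝ³` with `|A| = n` -/
def ratios (n : ℕ) : Set ℝ :=
  {r | ∃ A : Finset (Fin 3 → ℝ), A.card = n ∧ FiveGeneric A ∧
    r = (((A : Set (Fin 3 → ℝ)) + (A : Set (Fin 3 → ℝ))).ncard : ℝ) / (A.card : ℝ)}

/-- the function `g` of the problem: the minimum of `|A + A| / |A|` -/
noncomputable def g (n : ℕ) : ℝ := sInf (ratios n)

lemma aux24 {s D : ℝ} {k : ℕ} (hD : D = 16 * (k : ℝ) - 2) (hs0 : 0 ≤ s) (hks : s ≤ k)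
    (hk1r : (1 : ℝ) ≤ k) : ((24 * k : ℕ) : ℝ) * (s ^ 2 / D) ≤ 3 / 2 * s ^ 2 + s := by
  have hD0 : 0 < D := by linarith
  have h4 : ((24 * k : ℕ) : ℝ) = 3 / 2 * D + 3 := by
    push_cast
    rw [hD]
    ring
  have h5 : s ^ 2 / D ≤ s / 3 := by
    rw [div_le_iff₀ hD0]
    have : 3 * s ≤ D := by linarith
    nlinarith [mul_le_mul_of_nonneg_left this hs0]
  have h6 : s ^ 2 / D * D = s ^ 2 := div_mul_cancel₀ _ hD0.ne'
  rw [h4]
  calc (3 / 2 * D + 3) * (s ^ 2 / D) = 3 / 2 * (s ^ 2 / D * D) + 3 * (s ^ 2 / D) := by ring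
    _ ≤ 3 / 2 * s ^ 2 + 3 * (s / 3) := by rw [h6]; linarith
    _ = 3 / 2 * s ^ 2 + s := by ring

lemma ratio_exists : ∃ C : ℝ, 0 < C ∧ ∀ n : ℕ, 1 ≤ n →
    ∃ r ∈ ratios n, r ≤ C * Real.sqrt n * Real.exp (C * Real.sqrt (Real.log n)) := by
  obtain ⟨K, hK⟩ : ∃ K : ℝ, K = (Pool.Agent.H23.Cop.K0 : ℝ) := ⟨_, rfl⟩
  have hK1 : 1 ≤ K := by
    have : 1 ≤ Pool.Agent.H23.Cop.K0 := by
      unfold Pool.Agent.H23.Cop.K0
      norm_num
    rw [hK]
    exact_mod_cast this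
  obtain ⟨E, hE⟩ : ∃ E : ℝ, E = (2 * Real.exp 1) ^ 24 := ⟨_, rfl⟩
  obtain ⟨C1, hC1⟩ : ∃ C1 : ℝ, C1 = K * E := ⟨_, rfl⟩
  have he1 : (1 : ℝ) ≤ Real.exp 1 := Real.one_le_exp (by norm_num)
  have h2e : (1 : ℝ) ≤ E := by
    rw [hE]
    exact one_le_pow₀ (by linarith)
  have hC1' : 1 ≤ C1 := by
    rw [hC1]
    nlinarith
  obtain ⟨C, hCa, hCb⟩ : ∃ C : ℝ, C1 ^ 2 ≤ C ∧ Real.log C1 + 1 ≤ C :=
    ⟨max (C1 ^ 2) (Real.log C1 + 1), le_max_left _ _, le_max_right _ _⟩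
  have hCpos : 0 < C := lt_of_lt_of_le (by positivity) hCa
  refine ⟨C, hCpos, ?_⟩
  intro n hn
  have hn1 : (1 : ℝ) ≤ n := by exact_mod_cast hn
  have hn0 : (0 : ℝ) < n := by linarith
  have hlog : 0 ≤ Real.log n := Real.log_nonneg hn1
  obtain ⟨s, hs⟩ : ∃ s : ℝ, s = Real.sqrt (Real.log n) := ⟨_, rfl⟩
  rw [← hs]
  have hs0 : 0 ≤ s := by rw [hs]; exact Real.sqrt_nonneg _
  have hs2 : s ^ 2 = Real.log n := by rw [hs]; exact Real.sq_sqrt hlog
  have hexps : Real.exp (s ^ 2) = n := by rw [hs2, Real.exp_log hn0]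
  obtain ⟨k, hk⟩ : ∃ k : ℕ, k = ⌈s⌉₊ + 1 := ⟨_, rfl⟩
  have hk1 : 1 ≤ k := by omega
  have hkr : (k : ℝ) = (⌈s⌉₊ : ℝ) + 1 := by rw [hk]; push_cast; ring
  have hks : s ≤ k := by
    have := Nat.le_ceil s
    linarith
  have hks2 : (k : ℝ) ≤ s + 2 := by
    have := Nat.ceil_lt_add_one hs0
    linarith
  have hk1r : (1 : ℝ) ≤ k := by exact_mod_cast hk1
  obtain ⟨D, hD⟩ : ∃ D : ℝ, D = 16 * (k : ℝ) - 2 := ⟨_, rfl⟩
  have hD14 : 14 * (k : ℝ) ≤ D := by linarith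
  have hD0 : 0 < D := by linarith
  obtain ⟨u, hu⟩ : ∃ u : ℝ, u = s ^ 2 / D + 1 := ⟨_, rfl⟩
  have hu0 : 0 ≤ u := by rw [hu]; positivity
  obtain ⟨M, hM⟩ : ∃ M : ℕ, M = ⌈Real.exp u⌉₊ := ⟨_, rfl⟩
  have hMge : Real.exp u ≤ M := by rw [hM]; exact Nat.le_ceil _
  have hexpu : 1 ≤ Real.exp u := Real.one_le_exp hu0
  have hM1r : (1 : ℝ) ≤ M := by linarith
  have hM1 : 1 ≤ M := by exact_mod_cast hM1r
  have hMle : (M : ℝ) ≤ 2 * Real.exp u := by
    have := Nat.ceil_lt_add_one (Real.exp_pos u).le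
    rw [← hM] at this
    linarith
  -- the counting hypothesis
  have hpow : (16 * (k : ℝ)) * n ≤ (M : ℝ) ^ (16 * k - 2) := by
    have h1 : Real.exp u ^ (16 * k - 2) ≤ (M : ℝ) ^ (16 * k - 2) :=
      pow_le_pow_left₀ (Real.exp_pos u).le hMge _
    refine le_trans ?_ h1
    rw [← Real.exp_nat_mul]
    have h2 : ((16 * k - 2 : ℕ) : ℝ) = D := by
      rw [Nat.cast_sub (by omega)]
      push_cast
      exact hD.symm
    rw [h2]
    have h3 : D * u = s ^ 2 + D := by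
      rw [hu]
      field_simp
    rw [h3, Real.exp_add, hexps]
    have h4 : D / 2 + 1 ≤ Real.exp (D / 2) := Real.add_one_le_exp _
    have h5 : Real.exp D = Real.exp (D / 2) * Real.exp (D / 2) := by
      rw [← Real.exp_add]
      ring_nf
    have h6 : 16 * (k : ℝ) ≤ Real.exp D := by
      rw [h5]
      have h7 : 8 * (k : ℝ) ≤ Real.exp (D / 2) := by linarith
      have h8 : (8 * (k : ℝ)) * (8 * k) ≤ Real.exp (D / 2) * Real.exp (D / 2) :=
        mul_le_mul h7 h7 (by positivity) (Real.exp_pos _).le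
      nlinarith
    nlinarith
  have hcond : 16 * k * M ^ 2 * n ≤ M ^ (16 * k) := by
    have h1 : ((16 * k * M ^ 2 * n : ℕ) : ℝ) ≤ ((M ^ (16 * k) : ℕ) : ℝ) := by
      push_cast
      have h2 : (M : ℝ) ^ (16 * k) = (M : ℝ) ^ (16 * k - 2) * (M : ℝ) ^ 2 := by
        rw [← pow_add]
        congr 1
        omega
      rw [h2]
      have h3 : (0 : ℝ) ≤ (M : ℝ) ^ 2 := by positivity
      nlinarith [mul_le_mul_of_nonneg_right hpow h3]
    exact_mod_cast h1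
  obtain ⟨A, hAcard, hAgen, hAsum⟩ := Pool.Agent.H23.Cop.construct k M n hk1 hM1 hcond
  refine ⟨_, ⟨A, hAcard, hAgen, rfl⟩, ?_⟩
  rw [hAcard, div_le_iff₀ hn0]
  have hAsum' : (((A : Set (Fin 3 → ℝ)) + (A : Set (Fin 3 → ℝ))).ncard : ℝ)
      ≤ K ^ k * (M : ℝ) ^ (24 * k) := by
    rw [hK]
    exact_mod_cast hAsum
  refine hAsum'.trans ?_
  have hM24 : (M : ℝ) ^ (24 * k) ≤ E ^ k * ((n : ℝ) * Real.sqrt n * Real.exp s) := by
    rw [hE]
    have h1 : (M : ℝ) ^ (24 * k) ≤ (2 * Real.exp u) ^ (24 * k) :=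
      pow_le_pow_left₀ (by linarith) hMle _
    refine h1.trans ?_
    have h2 : 2 * Real.exp u = (2 * Real.exp 1) * Real.exp (s ^ 2 / D) := by
      rw [hu, Real.exp_add]
      ring
    rw [h2, mul_pow, ← pow_mul (2 * Real.exp 1) 24 k, ← Real.exp_nat_mul]
    apply mul_le_mul_of_nonneg_left _ (pow_nonneg (by linarith) _)
    have h3 : (n : ℝ) * Real.sqrt n = Real.exp (3 / 2 * s ^ 2) := by
      have : Real.sqrt n = Real.exp (s ^ 2 / 2) := by
        rw [Real.sqrt_eq_iff_mul_self_eq hn0.le (Real.exp_pos _).le, ← Real.exp_add]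
        rw [← hexps]
        congr 1
        ring
      rw [this]
      nth_rewrite 1 [← hexps]
      rw [← Real.exp_add]
      congr 1
      ring
    rw [h3, ← Real.exp_add]
    apply Real.exp_le_exp.2
    exact aux24 hD hs0 hks hk1r
  have hC1k : C1 ^ k ≤ C * Real.exp (Real.log C1 * s) := by
    have hC1pos : 0 < C1 := by linarith
    have h1 : C1 ^ k = Real.exp (Real.log C1 * k) := by
      rw [mul_comm, Real.exp_nat_mul, Real.exp_log hC1pos]
    have h2 : C1 ^ 2 = Real.exp (Real.log C1 * 2) := by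
      rw [mul_comm]
      have := Real.exp_nat_mul (Real.log C1) 2
      push_cast at this
      rw [this, Real.exp_log hC1pos]
    have h3 : C1 ^ k ≤ C1 ^ 2 * Real.exp (Real.log C1 * s) := by
      rw [h1, h2, ← Real.exp_add]
      apply Real.exp_le_exp.2
      have := Real.log_nonneg hC1'
      nlinarith
    refine h3.trans ?_
    apply mul_le_mul_of_nonneg_right hCa (Real.exp_pos _).le
  calc K ^ k * (M : ℝ) ^ (24 * k)
      ≤ K ^ k * (E ^ k * ((n : ℝ) * Real.sqrt n * Real.exp s)) := by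
        apply mul_le_mul_of_nonneg_left hM24 (by positivity)
    _ = C1 ^ k * ((n : ℝ) * Real.sqrt n * Real.exp s) := by
        rw [hC1, mul_pow]
        ring
    _ ≤ (C * Real.exp (Real.log C1 * s)) * ((n : ℝ) * Real.sqrt n * Real.exp s) := by
        apply mul_le_mul_of_nonneg_right hC1k (by positivity)
    _ = C * Real.sqrt n * Real.exp ((Real.log C1 + 1) * s) * n := by
        rw [add_mul, one_mul, Real.exp_add]
        ring
    _ ≤ C * Real.sqrt n * Real.exp (C * s) * n := by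
        have h1 : Real.exp ((Real.log C1 + 1) * s) ≤ Real.exp (C * s) := by
          apply Real.exp_le_exp.2
          exact mul_le_mul_of_nonneg_right hCb hs0
        have h2 : 0 ≤ C * Real.sqrt n := by positivity
        exact mul_le_mul_of_nonneg_right (mul_le_mul_of_nonneg_left h1 h2) hn0.le

/-- **Upper bound `n^{1/2+o(1)}` for `g`.** For every `n ≥ 1` the minimum `g n` is attained, and there
is a constant `C` with `g n ≤ C √n exp(C √(log n))` for all `n ≥ 1`. -/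
theorem result :
    (∀ n : ℕ, 1 ≤ n → IsLeast (ratios n) (g n)) ∧
    ∃ C : ℝ, 0 < C ∧ ∀ n : ℕ, 1 ≤ n →
      g n ≤ C * Real.sqrt n * Real.exp (C * Real.sqrt (Real.log n)) := by
  obtain ⟨C, hC, h⟩ := ratio_exists
  have hbdd : ∀ n, BddBelow (ratios n) := by
    intro n
    refine ⟨0, ?_⟩
    rintro r ⟨A, -, -, rfl⟩
    positivity
  refine ⟨?_, C, hC, ?_⟩
  · intro n hn
    refine ⟨?_, fun r hr => csInf_le (hbdd n) hr⟩
    -- the set is the image of a nonempty set of naturals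
    obtain ⟨r0, hr0, -⟩ := h n hn
    let T : Set ℕ := {m | ∃ A : Finset (Fin 3 → ℝ), A.card = n ∧ FiveGeneric A ∧
      m = ((A : Set (Fin 3 → ℝ)) + (A : Set (Fin 3 → ℝ))).ncard}
    have hTne : T.Nonempty := by
      obtain ⟨A, h1, h2, -⟩ := hr0
      exact ⟨_, A, h1, h2, rfl⟩
    obtain ⟨A, h1, h2, h3⟩ := Nat.sInf_mem hTne
    have hle : IsLeast (ratios n) ((((A : Set (Fin 3 → ℝ)) + (A : Set (Fin 3 → ℝ))).ncard : ℝ) /
        (A.card : ℝ)) := by
      refine ⟨⟨A, h1, h2, rfl⟩, ?_⟩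
      rintro r ⟨B, hB1, hB2, rfl⟩
      have h4 : sInf T ≤ ((B : Set (Fin 3 → ℝ)) + (B : Set (Fin 3 → ℝ))).ncard :=
        Nat.sInf_le ⟨B, hB1, hB2, rfl⟩
      rw [h3] at h4
      rw [h1, hB1]
      have h5 : (((A : Set (Fin 3 → ℝ)) + (A : Set (Fin 3 → ℝ))).ncard : ℝ) ≤
          (((B : Set (Fin 3 → ℝ)) + (B : Set (Fin 3 → ℝ))).ncard : ℝ) := by exact_mod_cast h4
      exact div_le_div_of_nonneg_right h5 (by positivity)
    have : g n = _ := hle.csInf_eq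
    rw [this]
    exact hle.1
  · intro n hn
    obtain ⟨r, hr, hle⟩ := h n hn
    exact (csInf_le (hbdd n) hr).trans hle

end Pool.Agent.Results.MP_4fa8e2_co.SqrtBound
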