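import Pool.Agent.LEX.Lim
import Pool.Agent.Results.MP_4fa8e2_co.SqrtBound

set_option autoImplicit false

open Finset Matrix Filter
open scoped Pointwise

namespace Pool.Agent.Results.MP_4fa8e2_co.LimitExponent

/-- `A` is 5-generic: every affine plane `{x | a ⬝ᵥ x = c}` (`a ≠ 0`) of `ℝ³` contains at most four
points of `A`. -/
def FiveGeneric (A : Finset (Fin 3 → ℝ)) : Prop :=
  ∀ (a : Fin 3 → ℝ) (c : ℝ), a ≠ 0 → {x : Fin 3 → ℝ | x ∈ A ∧ a ⬝ᵥ x = c}.ncard ≤ 4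

/-- the set of the values `|A + A| / |A|` over all 5-generic `A ⊂ ℝ³` with `|A| = n` -/
def ratios (n : ℕ) : Set ℝ :=
  {r | ∃ A : Finset (Fin 3 → ℝ), A.card = n ∧ FiveGeneric A ∧
    r = (((A : Set (Fin 3 → ℝ)) + (A : Set (Fin 3 → ℝ))).ncard : ℝ) / (A.card : ℝ)}

/-- the function `g` of the problem: the minimum of `|A + A| / |A|` -/
noncomputable def g (n : ℕ) : ℝ := sInf (ratios n)

/-- no three points of `A` are collinear and no five points of `A` are coplanar -/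
def NoThreeNoFive (A : Finset (Fin 3 → ℝ)) : Prop :=
  (∀ T : Finset (Fin 3 → ℝ), T ⊆ A → T.card = 3 → ¬ Collinear ℝ (T : Set (Fin 3 → ℝ))) ∧
    (∀ T : Finset (Fin 3 → ℝ), T ⊆ A → T.card = 5 → ¬ Coplanar ℝ (T : Set (Fin 3 → ℝ)))

lemma half (γ : ℝ) (h : ∀ n : ℕ, 1 ≤ n → (n : ℝ) ^ γ / 4 ≤ g n) : γ ≤ 1 / 2 := by
  obtain ⟨C, hC, hg⟩ := Pool.Agent.Results.MP_4fa8e2_co.SqrtBound.result.2
  by_contra hcon
  push Not at hcon
  obtain ⟨δ, hδ⟩ : ∃ δ : ℝ, δ = γ - 1 / 2 := ⟨_, rfl⟩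
  have hδ0 : 0 < δ := by rw [hδ]; linarith
  -- for n = exp(s²): exp(γ s²)/4 ≤ C exp(s²/2) exp(C s): δ s² ≤ log (4C) + C s
  obtain ⟨K, hK⟩ : ∃ K : ℝ, K = |Real.log (4 * C)| + 1 := ⟨_, rfl⟩
  have hK1 : 1 ≤ K := by rw [hK]; linarith [abs_nonneg (Real.log (4 * C))]
  obtain ⟨s, hs⟩ : ∃ s : ℝ, s = (K + C + 1) / δ + 1 := ⟨_, rfl⟩
  have hs1 : 1 ≤ s := by
    rw [hs]
    have : 0 ≤ (K + C + 1) / δ := by positivity
    linarith
  have hsδ : K + C + 1 < δ * s := by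
    rw [hs, mul_add, mul_div_cancel₀ _ hδ0.ne']
    linarith
  -- n
  obtain ⟨n, hn⟩ : ∃ n : ℕ, Real.exp (s ^ 2) ≤ n := exists_nat_ge _
  have hn0 : (0 : ℝ) < n := lt_of_lt_of_le (Real.exp_pos _) hn
  have hn1 : 1 ≤ n := by
    have : (0 : ℝ) < n := hn0
    exact_mod_cast Nat.one_le_iff_ne_zero.2 (by rintro rfl; simp at this)
  obtain ⟨L, hL⟩ : ∃ L : ℝ, L = Real.log n := ⟨_, rfl⟩
  have hLs : s ^ 2 ≤ L := by
    rw [hL, Real.le_log_iff_exp_le hn0]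
    exact hn
  have hL0 : 0 ≤ L := le_trans (sq_nonneg _) hLs
  obtain ⟨t, ht⟩ : ∃ t : ℝ, t = Real.sqrt L := ⟨_, rfl⟩
  have ht0 : 0 ≤ t := by rw [ht]; exact Real.sqrt_nonneg _
  have ht2 : t ^ 2 = L := by rw [ht]; exact Real.sq_sqrt hL0
  have hst : s ≤ t := by
    rw [ht]
    exact Real.le_sqrt_of_sq_le hLs
  have h1 := (h n hn1).trans (hg n hn1)
  rw [← hL, ← ht] at h1
  have h2 : (n : ℝ) ^ γ = Real.exp (L * γ) := by
    rw [Real.rpow_def_of_pos hn0, ← hL]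
  have h3 : Real.sqrt n = Real.exp (L / 2) := by
    rw [Real.sqrt_eq_iff_mul_self_eq hn0.le (Real.exp_pos _).le, ← Real.exp_add]
    rw [add_halves, hL, Real.exp_log hn0]
  rw [h2, h3] at h1
  have h4 : Real.exp (L * γ) ≤ Real.exp (Real.log (4 * C) + L / 2 + C * t) := by
    rw [Real.exp_add, Real.exp_add, Real.exp_log (by positivity)]
    linarith
  have h5 := Real.exp_le_exp.1 h4
  have h6 : Real.log (4 * C) ≤ K := by
    rw [hK]
    linarith [le_abs_self (Real.log (4 * C))]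
  have h7 : δ * t ^ 2 ≤ K + C * t := by
    rw [ht2, hδ]
    linarith
  have ht1 : 1 ≤ t := hs1.trans hst
  have h8 : K + C + 1 < δ * t := lt_of_lt_of_le hsδ (mul_le_mul_of_nonneg_left hst hδ0.le)
  have h9 : (K + C + 1) * t < δ * t * t := mul_lt_mul_of_pos_right h8 (by linarith)
  nlinarith

/-- **The growth exponent of `g` exists and is determined by finite examples.** There is `γ ∈ [0, 1/2]` with
`log g(n) / log n → γ` and `g(n) ≥ n^γ / 4` for every `n ≥ 1`, and `γ` is the greatest lower bound of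
`log (|A + A| / |A|) / log |A|` over all finite `A ⊂ ℝ³` with at least two points, no three collinear, no five coplanar. -/
theorem result : ∃ γ : ℝ, 0 ≤ γ ∧ γ ≤ 1 / 2 ∧
    Tendsto (fun n : ℕ => Real.log (g n) / Real.log n) atTop (nhds γ) ∧
    (∀ n : ℕ, 1 ≤ n → (n : ℝ) ^ γ / 4 ≤ g n) ∧
    IsGLB {r : ℝ | ∃ A : Finset (Fin 3 → ℝ), 2 ≤ A.card ∧ NoThreeNoFive A ∧
      r = Real.log ((((A : Set (Fin 3 → ℝ)) + (A : Set (Fin 3 → ℝ))).ncard : ℝ) / A.card) / Real.log A.card} γ := by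
  obtain ⟨γ, h0, -, h2, h3, h4⟩ := Pool.Agent.LEX.lim
  exact ⟨γ, h0, half γ h3, h2, h3, h4⟩

end Pool.Agent.Results.MP_4fa8e2_co.LimitExponent
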