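import Pool.Agent.NCL.Gap

/-!
# A lower bound for the doubling of 5-generic sets, of the shape `exp (c √(log n) / log log n)`

For finite `A` in a torsion-free abelian group with `|A + A| ≤ K |A|` and at most `r` points on each line
`{z + j v : j ∈ ℤ}` we show `log |A| ≤ C (k (1 + log k) + log r) k (1 + log k)`, `k = 1 + log K`.  For bounded `r`
this is `|A + A| ≥ |A| exp (c √(log |A|) / log log |A|)`.  A 5-generic set of at least five points has at most
three points on a line, so this bounds the function `g` of the problem.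

Outline (files `Pool/Agent/NCL`, on top of the entropy library `Pool/Agent/NPM`).  Reduce to a finite group.
Take a near-minimiser `Y` of `H(X + X' | Y, Y') - H(X | Y) + η I(X : Y)`, `X` uniform on `A`, and `h m` the
conditional entropy of the sum `S_m` of `m` copies; then `h M ≤ h 1 + O(k (1 + log k))` for an `M` for which the
law of `S_M` is almost invariant under `a - b`, for all `a, b` in a set `A1 ⊆ A` of density
`exp (-O(k (1 + log k)))` (`Cor`).  Pigeonhole for `(x_0, ..., x_t) ↦ (x_1 - 2 x_0, ..., x_t - 2 x_(t-1))` gives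
`v ≠ 0` such that `v, 2v, 4v, ..., 2^t v` are all differences of elements of `A1` (`Pig`).  Adding `J v`, `J` uniform on
`[0, 2^(t+1))`, to `S_M` costs at most `0.225 (t+1) log 2` of entropy (`Shf`), but adding it to `X` gains at least
`(t+1) log 2 - log r`, as each progression meets `A` in at most `r` points (`Fib`).
-/

set_option autoImplicit false
set_option linter.unusedSectionVars false
set_option linter.unusedVariables false

open Finset Matrix
open scoped Pointwise

namespace Pool.Agent.Results.MP_4fa8e2_co.LowerBound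

/-- `A` is 5-generic: every affine plane `{x | a ⬝ᵥ x = c}` (`a ≠ 0`) of `ℝ³` contains at most four
points of `A`. -/
def FiveGeneric (A : Finset (Fin 3 → ℝ)) : Prop :=
  ∀ (a : Fin 3 → ℝ) (c : ℝ), a ≠ 0 → {x : Fin 3 → ℝ | x ∈ A ∧ a ⬝ᵥ x = c}.ncard ≤ 4

/-- the set of the values `|A + A| / |A|` over all 5-generic `A ⊂ ℝ³` with `|A| = n` -/
def ratios (n : ℕ) : Set ℝ :=
  {r | ∃ A : Finset (Fin 3 → ℝ), A.card = n ∧ FiveGeneric A ∧
    r = (((A : Set (Fin 3 → ℝ)) + (A : Set (Fin 3 → ℝ))).ncard : ℝ) / (A.card : ℝ)}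

/-- the function `g` of the problem: the minimum of `|A + A| / |A|` -/
noncomputable def g (n : ℕ) : ℝ := sInf (ratios n)

/-- `exp (c √(log n) / log log n)` -/
noncomputable def growth (c : ℝ) (n : ℕ) : ℝ :=
  Real.exp (c * Real.sqrt (Real.log n) / Real.log (Real.log n))

/-! ### 5-generic sets exist (moment curve) -/

private theorem mem_moment (n : ℕ) : ∃ A : Finset (Fin 3 → ℝ), A.card = n ∧ FiveGeneric A := by
  classical
  let f : ℝ → (Fin 3 → ℝ) := fun t => ![t, t ^ 2, t ^ 3]
  have hf : Function.Injective f := by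
    intro s t h
    have := congrFun h 0
    simpa [f] using this
  refine ⟨(Finset.range n).image (fun t : ℕ => f (t : ℝ)), ?_, ?_⟩
  · rw [Finset.card_image_of_injective (Finset.range n) (f := fun t : ℕ => f (t : ℝ))
      (fun s t h => Nat.cast_injective (hf h)), Finset.card_range]
  · intro a c ha
    let p : Polynomial ℝ := Polynomial.C (a 2) * Polynomial.X ^ 3 + Polynomial.C (a 1) * Polynomial.X ^ 2 +
      Polynomial.C (a 0) * Polynomial.X - Polynomial.C c
    have hp0 : p ≠ 0 := by
      intro h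
      apply ha
      have h3 : p.coeff 3 = a 2 := by simp [p]
      have h2 : p.coeff 2 = a 1 := by simp [p]
      have h1 : p.coeff 1 = a 0 := by simp [p]
      rw [h] at h1 h2 h3
      simp only [Polynomial.coeff_zero] at h1 h2 h3
      funext i
      fin_cases i
      · exact h1.symm
      · exact h2.symm
      · exact h3.symm
    have hdeg : p.natDegree ≤ 3 := by
      have : p.natDegree ≤ 3 := by
        simp only [p]
        compute_degree
      exact this
    have hsub : {x : Fin 3 → ℝ | x ∈ (Finset.range n).image (fun t : ℕ => f (t : ℝ)) ∧ a ⬝ᵥ x = c} ⊆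
        ((p.roots.toFinset.image f : Finset (Fin 3 → ℝ)) : Set (Fin 3 → ℝ)) := by
      rintro x ⟨hx, hxc⟩
      obtain ⟨t, -, rfl⟩ := Finset.mem_image.1 hx
      rw [Finset.coe_image, Set.mem_image]
      refine ⟨(t : ℝ), ?_, rfl⟩
      rw [Finset.mem_coe, Multiset.mem_toFinset, Polynomial.mem_roots hp0]
      simp only [f, dotProduct, Fin.sum_univ_three] at hxc
      simp only [Matrix.cons_val_zero, Matrix.cons_val_one, Matrix.cons_val] at hxc
      simp only [Polynomial.IsRoot, p, Polynomial.eval_sub, Polynomial.eval_add, Polynomial.eval_mul,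
        Polynomial.eval_C, Polynomial.eval_pow, Polynomial.eval_X]
      linarith
    calc _ ≤ ((p.roots.toFinset.image f : Finset (Fin 3 → ℝ)) : Set (Fin 3 → ℝ)).ncard :=
          Set.ncard_le_ncard hsub (Finset.finite_toSet _)
      _ = (p.roots.toFinset.image f).card := Set.ncard_coe_finset _
      _ ≤ p.roots.toFinset.card := Finset.card_image_le
      _ ≤ Multiset.card p.roots := Multiset.toFinset_card_le _
      _ ≤ p.natDegree := Polynomial.card_roots' _
      _ ≤ 4 := by omega

private theorem ratios_nonempty (n : ℕ) : (ratios n).Nonempty := by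
  obtain ⟨A, h1, h2⟩ := mem_moment n
  exact ⟨_, A, h1, h2, rfl⟩

/-! ### lines in 5-generic sets -/

private theorem perp (v w : Fin 3 → ℝ) : ∃ a : Fin 3 → ℝ, a ≠ 0 ∧ a ⬝ᵥ v = 0 ∧ a ⬝ᵥ w = 0 := by
  let M : Matrix (Fin 3) (Fin 3) ℝ := ![v, w, 0]
  have hdet : M.det = 0 := Matrix.det_eq_zero_of_row_eq_zero 2 (fun j => rfl)
  obtain ⟨a, ha, hM⟩ := (Matrix.exists_mulVec_eq_zero_iff (M := M)).2 hdet
  refine ⟨a, ha, ?_, ?_⟩
  · rw [dotProduct_comm]; exact congrFun hM 0
  · rw [dotProduct_comm]; exact congrFun hM 1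

private theorem line_three (A : Finset (Fin 3 → ℝ)) (hA : FiveGeneric A) (h5 : 5 ≤ A.card) (z v : Fin 3 → ℝ)
    (T : Finset (Fin 3 → ℝ)) (hT : T ⊆ A) (hz : ∀ a ∈ T, ∃ j : ℤ, a = z + j • v) : T.card ≤ 3 := by
  classical
  by_contra hcon
  push Not at hcon
  obtain ⟨e, heA, he⟩ : ∃ e ∈ A, 5 ≤ (insert e T).card := by
    rcases Nat.lt_or_ge T.card 5 with h | h
    · have h4 : T.card = 4 := by omega
      have : (A \ T).Nonempty := by
        rw [← Finset.card_pos, Finset.card_sdiff_of_subset hT]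
        omega
      obtain ⟨e, he⟩ := this
      rw [Finset.mem_sdiff] at he
      exact ⟨e, he.1, by rw [Finset.card_insert_of_notMem he.2, h4]⟩
    · have : T.Nonempty := Finset.card_pos.1 (by omega)
      obtain ⟨e, he⟩ := this
      exact ⟨e, hT he, by rw [Finset.insert_eq_of_mem he]; exact h⟩
  obtain ⟨a, ha, hv, hw⟩ := perp v (e - z)
  have h6 := hA a (a ⬝ᵥ z) ha
  have hsub : ((insert e T : Finset (Fin 3 → ℝ)) : Set (Fin 3 → ℝ)) ⊆ {x : Fin 3 → ℝ | x ∈ A ∧ a ⬝ᵥ x = a ⬝ᵥ z} := by
    intro x hx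
    rw [Finset.mem_coe, Finset.mem_insert] at hx
    rcases hx with rfl | hx
    · refine ⟨heA, ?_⟩
      rw [dotProduct_sub] at hw
      linarith
    · refine ⟨hT hx, ?_⟩
      obtain ⟨j, rfl⟩ := hz x hx
      rw [dotProduct_add, dotProduct_smul, hv, smul_zero, add_zero]
  have hfin : {x : Fin 3 → ℝ | x ∈ A ∧ a ⬝ᵥ x = a ⬝ᵥ z}.Finite :=
    (Finset.finite_toSet A).subset (fun x hx => hx.1)
  have h7 := Set.ncard_le_ncard hsub hfin
  rw [Set.ncard_coe_finset] at h7
  omega

private theorem tf_module (E : Type) [AddCommGroup E] [Module ℝ E] (n : ℤ) (v : E) (h : n • v = 0) : n = 0 ∨ v = 0 := by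
  rw [← Int.cast_smul_eq_zsmul ℝ, smul_eq_zero] at h
  rcases h with h | h
  · left; exact_mod_cast h
  · right; exact h

/-! ### the theorem -/

theorem result :
    -- (1) the function `g` of the problem
    (∃ c : ℝ, 0 < c ∧ ∃ n₀ : ℕ, ∀ n : ℕ, n₀ ≤ n → growth c n ≤ g n) ∧
    -- (2) sets with at most `r` points on every line of a real vector space
    (∀ r : ℕ, ∃ c : ℝ, 0 < c ∧ ∃ n₀ : ℕ, ∀ (E : Type) [AddCommGroup E] [Module ℝ E] (A : Finset E),
      n₀ ≤ A.card → (∀ T : Finset E, T ⊆ A → Collinear ℝ (T : Set E) → T.card ≤ r) →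
        (A.card : ℝ) * growth c A.card ≤ (((A : Set E) + (A : Set E)).ncard : ℝ)) ∧
    -- (3) torsion-free groups, explicit dependence on the doubling and on the number of points on a line
    (∃ C : ℝ, 0 < C ∧ ∀ (V : Type) [AddCommGroup V] [IsAddTorsionFree V] (A : Finset V) (K : ℝ) (r : ℕ),
      A.Nonempty → (((A : Set V) + (A : Set V)).ncard : ℝ) ≤ K * (A.card : ℝ) →
      (∀ z v : V, v ≠ 0 → {a : V | a ∈ A ∧ ∃ j : ℤ, a = z + j • v}.ncard ≤ r) →
        Real.log A.card ≤
          C * ((1 + Real.log K) * (1 + Real.log (1 + Real.log K)) + Real.log r) *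
            ((1 + Real.log K) * (1 + Real.log (1 + Real.log K)))) := by
  classical
  refine ⟨?_, ?_, ?_⟩
  · obtain ⟨c, hc, n₀, hn₀, h⟩ := Pool.Agent.NCL.few 3
    refine ⟨c, hc, n₀, ?_⟩
    intro n hn
    apply le_csInf (ratios_nonempty n)
    rintro _ ⟨A, hAn, hA, rfl⟩
    have h5 : 5 ≤ A.card := by omega
    have ha : (0 : ℝ) < (A.card : ℝ) := by
      have : 0 < A.card := by omega
      exact_mod_cast this
    have h1 := h (Fin 3 → ℝ) A (tf_module _) (by omega)
      (fun z v _ T hT hz => line_three A hA h5 z v T hT hz)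
    rw [le_div_iff₀ ha, ← Finset.coe_add, Set.ncard_coe_finset, mul_comm]
    unfold growth
    rw [← hAn]
    exact h1
  · intro r
    obtain ⟨c, hc, n₀, hn₀, h⟩ := Pool.Agent.NCL.few r
    refine ⟨c, hc, n₀, ?_⟩
    intro E _ _ A hn hr
    rw [← Finset.coe_add, Set.ncard_coe_finset]
    refine h E A (tf_module E) hn ?_
    intro z v _ T hT hz
    apply hr T hT
    refine (collinear_iff_exists_forall_eq_smul_vadd (k := ℝ) _).2 ⟨z, v, ?_⟩
    intro p hp
    obtain ⟨j, hj⟩ := hz p (by simpa using hp)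
    refine ⟨(j : ℝ), ?_⟩
    rw [hj, Int.cast_smul_eq_zsmul, vadd_eq_add, add_comm]
  · obtain ⟨C, hC, h⟩ := Pool.Agent.NCL.genK
    refine ⟨C, by linarith, ?_⟩
    intro V _ _ A K r hA hK hr
    rw [← Finset.coe_add, Set.ncard_coe_finset] at hK
    refine h V A r K ?_ hA hK ?_
    · intro n v hnv
      rcases eq_or_ne n 0 with h0 | h0
      · exact Or.inl h0
      · exact Or.inr ((IsAddTorsionFree.zsmul_eq_zero_iff_right h0).1 hnv)
    · intro z v hv T hT hz
      have hfin : {a : V | a ∈ A ∧ ∃ j : ℤ, a = z + j • v}.Finite :=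
        (Finset.finite_toSet A).subset (fun x hx => hx.1)
      have hsub : (T : Set V) ⊆ {a : V | a ∈ A ∧ ∃ j : ℤ, a = z + j • v} := fun x hx => ⟨hT hx, hz x hx⟩
      have h1 := Set.ncard_le_ncard hsub hfin
      rw [Set.ncard_coe_finset] at h1
      exact h1.trans (hr z v hv)

end Pool.Agent.Results.MP_4fa8e2_co.LowerBound
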